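import Pool.Agent.Q26.EX.Tri

set_option autoImplicit false
set_option linter.unusedSectionVars false
set_option maxHeartbeats 2000000

/-!
# Project EX: the upper bound for the smallest value
-/

open Complex Filter Topology Set MeasureTheory
open scoped ComplexConjugate
open Pool.Agent.H24R2.JP (XX)
open Pool.Agent.Y23

namespace Pool.Agent.Q26.EX

/-- **S_Rate** from `S_Tri` -/
theorem rate0 (htri : Pool.Agent.Q240.EX.S_Tri) : Pool.Agent.Q240.EX.S_Rate := by
  intro hRH c hc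
  have hpi := Real.pi_gt_three
  obtain ⟨ε, hε, hε1, hεc⟩ : ∃ ε : ℝ, 0 < ε ∧ ε ≤ 1 ∧ 7 * ε ≤ 4 * Real.pi - c := by
    refine ⟨min ((4 * Real.pi - c) / 7) 1, by
      have : 0 < (4 * Real.pi - c) / 7 := by linarith
      positivity, min_le_right _ _, ?_⟩
    have := min_le_left ((4 * Real.pi - c) / 7) 1
    linarith
  set x0 : ℝ := ‖XX 0‖ with hx0
  have hx00 : 0 < x0 := norm_pos_iff.2 XX_zero_ne
  set Z : ℝ := ∑' ρ : Zt, (mu ρ : ℝ) * (1 / (1 + ((ρ : ℂ).im - 0) ^ 2)) with hZ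
  have hZ0 : 0 ≤ Z := tsum_nonneg fun ρ => by positivity
  have hA1 := absorb (2 / x0) 0 0 hε
  have hA2 := absorb Z 0 0 hε
  filter_upwards [htri ε hε, hA1, hA2, eventually_gt_atTop 0] with a ht h1 h2 ha
  rw [pow_zero, mul_one, zero_mul, Real.exp_zero, mul_one] at h1 h2
  obtain ⟨T, B, D, hT, -, -, hTT, hD, hlow, -⟩ := ht
  set X := Real.exp (2 * a) with hX
  have hX0 : 0 < X := Real.exp_pos _
  have hFa : Fa a T := hT.1
  -- the value at the origin
  have k1 := hlow 0 (by simp [hε.le])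
  have k2 := hD 0 (by simp)
  rw [Complex.ofReal_zero, mul_zero] at k1
  rw [norm_zero, add_zero, div_one] at k2
  have k3 : Real.exp ((2 * Real.pi - 2 * ε) * X) ≤ ‖TT T 0‖ := by
    have k4 : ‖B 0‖ * x0 - ‖D 0‖ ≤ ‖TT T 0‖ := by
      rw [hTT, hx0, ← norm_mul]
      have := norm_sub_le (B 0 * XX 0 + D 0) (D 0)
      rw [add_sub_cancel_right] at this
      linarith
    have k5 : Real.exp ((2 * Real.pi - ε) * X) = Real.exp ((2 * Real.pi - 2 * ε) * X) * Real.exp (ε * X) := by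
      rw [← Real.exp_add]; congr 1; ring
    have k6 : Real.exp (ε * X) ≤ Real.exp ((2 * Real.pi - 2 * ε) * X) := by
      refine Real.exp_le_exp.2 (mul_le_mul_of_nonneg_right (by linarith) hX0.le)
    have k7 : 2 * Real.exp ((2 * Real.pi - 2 * ε) * X) ≤ ‖B 0‖ * x0 := by
      calc 2 * Real.exp ((2 * Real.pi - 2 * ε) * X) = Real.exp ((2 * Real.pi - 2 * ε) * X) * (2 / x0) * x0 := by
            field_simp
        _ ≤ Real.exp ((2 * Real.pi - 2 * ε) * X) * Real.exp (ε * X) * x0 := by gcongr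
        _ ≤ _ := by
            rw [← k5]
            exact mul_le_mul_of_nonneg_right k1 hx00.le
    linarith
  have hne : TT T 0 ≠ 0 := by
    rw [← norm_pos_iff]
    exact (Real.exp_pos _).trans_le k3
  set c' : ℂ := (TT T 0)⁻¹ with hc'
  have hc'n : ‖c'‖ ≤ Real.exp (-((2 * Real.pi - 2 * ε) * X)) := by
    rw [hc', norm_inv, Real.exp_neg]
    exact inv_anti₀ (Real.exp_pos _) k3
  -- the values at the zeros
  have hval : ∀ ρ : Zt, (mu ρ : ℝ) * ‖TT (fun x => c' * T x) ((ρ : ℂ) - 1 / 2)‖ ^ 2 ≤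
      Real.exp (-((4 * Real.pi - 6 * ε) * X)) * ((mu ρ : ℝ) * (1 / (1 + ((ρ : ℂ).im - 0) ^ 2))) := by
    intro ρ
    set w := (ρ : ℂ) - 1 / 2 with hw
    have hXw : XX w = 0 := (isZ_iff ρ).1 ρ.2
    have hre : |w.re| ≤ 1 := (half_re ρ).trans (by norm_num)
    have hwim : w.im = (ρ : ℂ).im := by rw [hw]; simp
    have m1 := hD w hre
    have m2 : TT T w = D w := by rw [hTT, hXw, mul_zero, zero_add]
    have m3 : ‖TT (fun x => c' * T x) w‖ ≤ Real.exp (-((2 * Real.pi - 3 * ε) * X)) / (1 + ‖w‖) := by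
      rw [TT_smul, norm_mul, m2]
      calc ‖c'‖ * ‖D w‖ ≤ Real.exp (-((2 * Real.pi - 2 * ε) * X)) * (Real.exp (ε * X) / (1 + ‖w‖)) :=
            mul_le_mul hc'n m1 (norm_nonneg _) (Real.exp_pos _).le
        _ = _ := by
            rw [← mul_div_assoc, ← Real.exp_add]; congr 2; ring
    have m4 : ‖TT (fun x => c' * T x) w‖ ^ 2 ≤ Real.exp (-((4 * Real.pi - 6 * ε) * X)) * (1 / (1 + ((ρ : ℂ).im - 0) ^ 2)) := by
      rw [sub_zero, ← hwim]
      calc ‖TT (fun x => c' * T x) w‖ ^ 2 ≤ (Real.exp (-((2 * Real.pi - 3 * ε) * X)) / (1 + ‖w‖)) ^ 2 :=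
            pow_le_pow_left₀ (norm_nonneg _) m3 2
        _ = Real.exp (-((4 * Real.pi - 6 * ε) * X)) * (1 / (1 + ‖w‖) ^ 2) := by
            rw [div_pow, ← Real.exp_nat_mul, mul_one_div]
            congr 2
            push_cast
            ring
        _ ≤ _ := by
            refine mul_le_mul_of_nonneg_left ?_ (Real.exp_pos _).le
            apply one_div_le_one_div_of_le (by positivity)
            have m5 : |w.im| ≤ ‖w‖ := Complex.abs_im_le_norm w
            rw [← sq_abs w.im]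
            nlinarith [abs_nonneg w.im]
    calc (mu ρ : ℝ) * ‖TT (fun x => c' * T x) w‖ ^ 2 ≤
        (mu ρ : ℝ) * (Real.exp (-((4 * Real.pi - 6 * ε) * X)) * (1 / (1 + ((ρ : ℂ).im - 0) ^ 2))) :=
          mul_le_mul_of_nonneg_left m4 (Nat.cast_nonneg _)
      _ = _ := by ring
  have hdom : Dom (fun x => c' * T x) :=
    Summable.of_nonneg_of_le (fun ρ => by positivity) hval ((zsummable 0).mul_left _)
  refine ⟨fun x => c' * T x, (Hd_iff ha _).2 ⟨hFa.smul c', hdom⟩, ?_, ?_⟩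
  · rw [TT_smul, hc', inv_mul_cancel₀ hne]
  · rw [QQ_eq_SS hRH]
    have h8 : SS (fun x => c' * T x) ≤ Real.exp (-((4 * Real.pi - 6 * ε) * X)) * Z := by
      unfold SS
      rw [hZ, ← tsum_mul_left]
      exact hdom.tsum_le_tsum hval ((zsummable 0).mul_left _)
    refine h8.trans ?_
    calc Real.exp (-((4 * Real.pi - 6 * ε) * X)) * Z ≤ Real.exp (-((4 * Real.pi - 6 * ε) * X)) * Real.exp (ε * X) :=
          mul_le_mul_of_nonneg_left h2 (Real.exp_pos _).le
      _ = Real.exp (-((4 * Real.pi - 7 * ε) * X)) := by rw [← Real.exp_add]; congr 1; ring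
      _ ≤ _ := by
          refine Real.exp_le_exp.2 (neg_le_neg (mul_le_mul_of_nonneg_right (by linarith) hX0.le))

/-- **S_Rate** -/
theorem rate : Pool.Agent.Q240.EX.S_Rate := rate0 tri

end Pool.Agent.Q26.EX
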