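import Pool.Agent.Q240.EX.Stm2

set_option autoImplicit false
set_option linter.unusedSectionVars false
set_option maxHeartbeats 2000000

/-!
# Project EX: trial functions with exponent `2 π`
-/

open Complex Filter Topology Set MeasureTheory
open scoped ComplexConjugate
open Pool.Agent.H24R2.JP (XX)
open Pool.Agent.Y23

namespace Pool.Agent.Q26.EX

/-- the transform of the mollifier on a segment of the imaginary axis -/
lemma kap_low {h : ℝ} (hh : 0 < h) {γ : ℝ} (hγ : |γ| * (2 * h) ≤ 1) : h ≤ ‖TT (kap h) (I * γ)‖ := by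
  refine le_trans ?_ (Complex.re_le_norm _)
  have hre : ∀ x, 0 ≤ (kap h x).re := by
    intro x
    unfold kap tent
    by_cases h1 : |x| ≤ h
    · rw [if_pos h1, if_pos (by linarith)]
      simp only [Complex.sub_re, Complex.mul_re, Complex.ofReal_re, Complex.ofReal_im]
      norm_num
      have : 2 * (1 - |x| / (2 * h)) = 2 - |x| / h := by field_simp
      rw [this]
      linarith
    · by_cases h2 : |x| ≤ 2 * h
      · rw [if_neg h1, if_pos h2]
        simp only [Complex.sub_re, Complex.mul_re, Complex.ofReal_re, Complex.ofReal_im]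
        norm_num
        rw [div_le_one (by positivity)]
        exact h2
      · rw [if_neg h1, if_neg h2]
        simp
  have him : ∀ x, (kap h x).im = 0 := by
    intro x
    unfold kap
    simp
  have hF := Fa_kap hh
  have hi : Integrable (fun x : ℝ => kap h x * cexp (I * γ * x)) := hF.integrable_mul (by fun_prop)
  have e0 : (TT (kap h) (I * γ)).re = ∫ x : ℝ, (kap h x * cexp (I * γ * x)).re := by
    unfold TT
    exact (integral_re hi).symm
  have e1 : ∀ x : ℝ, (kap h x * cexp (I * γ * x)).re = (kap h x).re * Real.cos (γ * x) := by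
    intro x
    have e2 : I * γ * x = ((γ * x : ℝ) : ℂ) * I := by push_cast; ring
    rw [Complex.mul_re, him, e2, Complex.exp_mul_I, ← Complex.ofReal_cos, ← Complex.ofReal_sin]
    simp only [Complex.add_re, Complex.mul_re, Complex.ofReal_re, Complex.ofReal_im, Complex.I_re, Complex.I_im]
    ring
  have hcos : ∀ x : ℝ, |x| ≤ 2 * h → 1 / 2 ≤ Real.cos (γ * x) := by
    intro x hx
    have h1 := Real.one_sub_sq_div_two_le_cos (x := γ * x)
    have h2 : |γ * x| ≤ 1 := by
      rw [abs_mul]
      exact (mul_le_mul_of_nonneg_left hx (abs_nonneg _)).trans hγ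
    have h3 : (γ * x) ^ 2 ≤ 1 := by
      rw [← sq_abs]
      nlinarith [abs_nonneg (γ * x)]
    linarith
  have hnn : ∀ x : ℝ, 0 ≤ (kap h x).re * Real.cos (γ * x) := by
    intro x
    by_cases hx : |x| ≤ 2 * h
    · have := hcos x hx
      exact mul_nonneg (hre x) (by linarith)
    · rw [hF.2 x (not_le.1 hx)]
      simp
  rw [e0]
  simp only [e1]
  have hi2 : Integrable (fun x : ℝ => (kap h x).re * Real.cos (γ * x)) := by
    have := hi.re
    refine this.congr (Eventually.of_forall fun x => ?_)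
    exact e1 x
  have h5 : ∫ x in Icc (-h) h, (kap h x).re * Real.cos (γ * x) ≤ ∫ x : ℝ, (kap h x).re * Real.cos (γ * x) :=
    setIntegral_le_integral hi2 (Eventually.of_forall hnn)
  have h6 : ∫ x in Icc (-h) h, (1 / 2 : ℝ) ≤ ∫ x in Icc (-h) h, (kap h x).re * Real.cos (γ * x) := by
    refine setIntegral_mono_on (by simp) hi2.integrableOn measurableSet_Icc fun x hx => ?_
    have hx' : |x| ≤ h := abs_le.2 hx
    rw [kap_one hh hx', Complex.one_re, one_mul]
    exact hcos x (by linarith)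
  have h7 : ∫ x in Icc (-h) h, (1 / 2 : ℝ) = h := by
    rw [setIntegral_const, Real.volume_real_Icc_of_le (by linarith)]
    simp only [smul_eq_mul]
    ring
  linarith

/-- the choice of the parameters -/
lemma exists_par {ε : ℝ} (hε : 0 < ε) : ∃ t : ℝ, 0 < t ∧ t ≤ ε ∧ t < 1 ∧ 2 * Real.pi - ε / 2 ≤ 2 * Real.pi * Real.exp (-(2 * t)) * Real.cos t := by
  have hc : ContinuousAt (fun t : ℝ => 2 * Real.pi * Real.exp (-(2 * t)) * Real.cos t) 0 := by fun_prop
  have h0 : 2 * Real.pi - ε / 2 < 2 * Real.pi * Real.exp (-(2 * 0)) * Real.cos 0 := by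
    simp
    linarith
  have h1 := hc.eventually (lt_mem_nhds h0)
  rw [Metric.eventually_nhds_iff] at h1
  obtain ⟨d, hd, h2⟩ := h1
  refine ⟨min (d / 2) (min ε (1 / 2)), by positivity, ?_, ?_, ?_⟩
  · exact (min_le_right _ _).trans (min_le_left _ _)
  · have := (min_le_right (d / 2) (min ε (1 / 2))).trans (min_le_right _ _)
    linarith
  · have h3 : 0 < min (d / 2) (min ε (1 / 2)) := by positivity
    have h4 : min (d / 2) (min ε (1 / 2)) ≤ d / 2 := min_le_left _ _
    exact (h2 (by rw [Real.dist_eq, sub_zero, abs_of_pos h3]; linarith)).le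

/-- **S_Tri** -/
theorem tri : Pool.Agent.Q240.EX.S_Tri := by
  intro ε hε
  have hpi := Real.pi_pos
  obtain ⟨t, ht0, htε, ht1, htc⟩ := exists_par hε
  have htpi : t < Real.pi / 2 := by linarith [Real.pi_gt_three]
  obtain ⟨p, σ, htp, hp, hσ, hps⟩ := exists_pσ (ε := ε / (2 * Real.pi)) (q := t) (by positivity) htpi
  have hp0 : 0 ≤ p := by linarith
  have hh : 0 < t / 2 := by positivity
  obtain ⟨K, hK, hkt⟩ := tK_bound hp0 hp hσ
  obtain ⟨Ck, hCk, hkb⟩ := kap_bound hh
  -- the mollifier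
  have hκF : Fa t (kap (t / 2)) := by
    have := Fa_kap hh
    rwa [show 2 * (t / 2) = t by ring] at this
  have hκd : Differentiable ℂ (TT (kap (t / 2))) := differentiable_TT hκF
  obtain ⟨Mk, hMk⟩ := (isCompact_closedBall (0 : ℂ) (1 / ε)).exists_bound_of_continuousOn hκd.continuous.continuousOn
  have hMk0 : 0 ≤ Mk := (norm_nonneg _).trans (hMk 0 (by simp [hε.le]))
  have hlow : ∀ γ : ℝ, |γ| ≤ 1 / ε → t / 2 ≤ ‖TT (kap (t / 2)) (I * γ)‖ := by
    intro γ hγ
    refine kap_low hh ?_
    calc |γ| * (2 * (t / 2)) ≤ 1 / ε * t := by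
          rw [show 2 * (t / 2) = t by ring]
          exact mul_le_mul_of_nonneg_right hγ ht0.le
      _ ≤ 1 / ε * ε := mul_le_mul_of_nonneg_left htε (by positivity)
      _ = 1 := by field_simp
  -- the constants are absorbed
  have hA1 := absorb (3 * Ck * K) 6 0 (ε := ε / 2) (by positivity)
  have hA2 := absorb (2 / t * (8 / t)) 0 0 (ε := ε / 2) (by positivity)
  have hA3 := absorb (2 * p * Real.exp (1 / ε * p / 2) / 8 * Mk) 0 0 (ε := ε) hε
  filter_upwards [hA1, hA2, hA3, eventually_ge_atTop (t + 1)] with a h1 h2 h3 ha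
  rw [pow_zero, mul_one] at h1 h2 h3
  rw [zero_mul, Real.exp_zero, mul_one] at h2 h3
  have ha0 : 0 < a := by linarith
  set X := Real.exp (2 * a) with hX
  have hX0 : 0 < X := Real.exp_pos _
  set b := a - t with hb
  have hb0 : 0 ≤ b := by linarith
  set L := Real.exp (2 * b) with hL
  have hL0 : 0 < L := Real.exp_pos _
  have hLX : L = X * Real.exp (-(2 * t)) := by
    rw [hL, hX, ← Real.exp_add]; congr 1; rw [hb]; ring
  have hLX1 : L ≤ X := by
    rw [hL, hX]; exact Real.exp_le_exp.2 (by linarith)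
  -- the functions
  have hu : Fa b (uK L p b) := Fa_uK hp0 hp
  obtain ⟨T, hT, hTT0⟩ := G.conv_TT hu hκF (fun x => G.kap_bdd hh x)
  rw [show b + t = a by rw [hb]; ring] at hT
  set B : ℂ → ℂ := fun w => AK L p w / 8 * TT (kap (t / 2)) w with hB
  set D : ℂ → ℂ := fun w => -(tK L p b w * TT (kap (t / 2)) w) with hD
  have hTT : ∀ w, TT T w = B w * XX w + D w := by
    intro w
    rw [hTT0, TT_uK hL0 hp0 hp]
    simp only [hB, hD]
    ring
  have hBd : Differentiable ℂ B := ((AK_diff L p).div_const 8).mul hκd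
  have hXd : Differentiable ℂ XX := XX_diff
  have hDd : Differentiable ℂ D := by
    have e : D = fun w => TT T w - B w * XX w := by
      funext w; rw [hTT]; ring
    rw [e]
    exact (differentiable_TT hT).sub (hBd.mul hXd)
  have hDb : ∀ w : ℂ, |w.re| ≤ 1 → ‖D w‖ ≤ Real.exp (ε * X) / (1 + ‖w‖) := by
    intro w hw
    have k1 := hkt b hb0 w hw
    have k2 := hkb w hw
    have k3 : Real.exp (6 * b) ≤ Real.exp (6 * a) := Real.exp_le_exp.2 (by linarith)
    have k4 : Real.exp (Real.pi * L * (Real.cos p + Real.exp (-σ))) ≤ Real.exp (ε / 2 * X) := by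
      refine Real.exp_le_exp.2 ?_
      calc Real.pi * L * (Real.cos p + Real.exp (-σ)) ≤ Real.pi * L * (ε / (2 * Real.pi)) :=
            mul_le_mul_of_nonneg_left hps.le (by positivity)
        _ = ε / 2 * L := by field_simp
        _ ≤ _ := mul_le_mul_of_nonneg_left hLX1 (by positivity)
    have k5 : ‖tK L p b w‖ ≤ K * Real.exp (6 * a) * Real.exp (ε / 2 * X) := by
      refine k1.trans ?_
      gcongr
    have k6 : Ck / (1 + w.im ^ 2) ≤ 3 * Ck / (1 + ‖w‖) := by
      rw [div_le_div_iff₀ (by positivity) (by positivity)]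
      have k7 : ‖w‖ ≤ |w.re| + |w.im| := Complex.norm_le_abs_re_add_abs_im w
      have k8 : w.im ^ 2 = |w.im| ^ 2 := (sq_abs _).symm
      have k9 : 1 + ‖w‖ ≤ 3 * (1 + w.im ^ 2) := by
        rw [k8]
        nlinarith [sq_nonneg (|w.im| - 1 / 6), abs_nonneg w.im]
      nlinarith
    simp only [hD]
    rw [norm_neg, norm_mul]
    calc ‖tK L p b w‖ * ‖TT (kap (t / 2)) w‖ ≤ (K * Real.exp (6 * a) * Real.exp (ε / 2 * X)) * (3 * Ck / (1 + ‖w‖)) :=
          mul_le_mul k5 (k2.trans k6) (norm_nonneg _) (by positivity)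
      _ = (3 * Ck * K * Real.exp (6 * a)) * Real.exp (ε / 2 * X) / (1 + ‖w‖) := by ring
      _ ≤ Real.exp (ε / 2 * X) * Real.exp (ε / 2 * X) / (1 + ‖w‖) := by gcongr
      _ = _ := by rw [← Real.exp_add]; congr 2; ring
  -- the domain
  have hdom : Dom T := by
    set s := Real.exp (ε * X) with hs
    have hs0 : 0 < s := Real.exp_pos _
    refine Summable.of_nonneg_of_le (fun ρ => by positivity) (fun ρ => ?_) ((zsummable 0).mul_left (s ^ 2))
    set w := (ρ : ℂ) - 1 / 2 with hw
    have hXw : XX w = 0 := (isZ_iff ρ).1 ρ.2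
    have hre : |w.re| ≤ 1 := (half_re ρ).trans (by norm_num)
    have hwim : w.im = (ρ : ℂ).im := by rw [hw]; simp
    have k1 := hDb w hre
    have k2 : TT T w = D w := by rw [hTT, hXw, mul_zero, zero_add]
    have k3 : ‖TT T w‖ ^ 2 ≤ s ^ 2 * (1 / (1 + ((ρ : ℂ).im - 0) ^ 2)) := by
      rw [sub_zero, ← hwim, k2]
      calc ‖D w‖ ^ 2 ≤ (s / (1 + ‖w‖)) ^ 2 := pow_le_pow_left₀ (norm_nonneg _) k1 2
        _ = s ^ 2 * (1 / (1 + ‖w‖) ^ 2) := by field_simp
        _ ≤ _ := by
            refine mul_le_mul_of_nonneg_left ?_ (by positivity)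
            apply one_div_le_one_div_of_le (by positivity)
            have k4 : |w.im| ≤ ‖w‖ := Complex.abs_im_le_norm w
            rw [← sq_abs w.im]
            nlinarith [abs_nonneg w.im]
    calc _ ≤ (mu ρ : ℝ) * (s ^ 2 * (1 / (1 + ((ρ : ℂ).im - 0) ^ 2))) := mul_le_mul_of_nonneg_left k3 (Nat.cast_nonneg _)
      _ = _ := by ring
  refine ⟨T, B, D, (Hd_iff ha0 T).2 ⟨hT, hdom⟩, hBd, hDd, hTT, hDb, fun γ hγ => ?_, fun w hw => ?_⟩
  · -- the lower bound
    have k1 : t * Real.exp (2 * Real.pi * L * Real.cos t) ≤ ‖AK L p (I * γ)‖ := by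
      have key : ∀ y : ℝ, 0 ≤ y → t * Real.exp (2 * Real.pi * L * Real.cos t) ≤ ‖AK L p (y * I)‖ := by
        intro y hy
        have := AK_low (L := L) (p := p) (φe := t) (κ := t) (γ := y) hL0.le ht0.le le_rfl htp.le hp hy
        rw [sub_self, mul_zero, zero_div, Real.exp_zero, mul_one] at this
        exact this
      rcases le_total 0 γ with hg | hg
      · rw [mul_comm I]; exact key γ hg
      · have := key (-γ) (by linarith)
        have e : ((-γ : ℝ) : ℂ) * I = -(I * γ) := by push_cast; ring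
        rwa [e, AK_even] at this
    have k2 := hlow γ hγ
    have k3 : (2 * Real.pi - ε / 2) * X ≤ 2 * Real.pi * L * Real.cos t := by
      rw [hLX]
      have := mul_le_mul_of_nonneg_right htc hX0.le
      linarith
    have k4 : Real.exp ((2 * Real.pi - ε / 2) * X) ≤ Real.exp (2 * Real.pi * L * Real.cos t) := Real.exp_le_exp.2 k3
    simp only [hB]
    rw [norm_mul, norm_div]
    have e8 : ‖(8 : ℂ)‖ = 8 := by norm_num
    rw [e8]
    have k5 : t * Real.exp ((2 * Real.pi - ε / 2) * X) / 8 * (t / 2) ≤ ‖AK L p (I * γ)‖ / 8 * ‖TT (kap (t / 2)) (I * γ)‖ := by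
      refine mul_le_mul ?_ k2 hh.le (by positivity)
      refine div_le_div_of_nonneg_right ?_ (by norm_num)
      exact (mul_le_mul_of_nonneg_left k4 ht0.le).trans k1
    refine le_trans ?_ k5
    have e9 : Real.exp ((2 * Real.pi - ε / 2) * X) = Real.exp ((2 * Real.pi - ε) * X) * Real.exp (ε / 2 * X) := by
      rw [← Real.exp_add]; congr 1; ring
    rw [e9]
    have k6 : Real.exp ((2 * Real.pi - ε) * X) * (2 / t * (8 / t)) ≤ Real.exp ((2 * Real.pi - ε) * X) * Real.exp (ε / 2 * X) :=
      mul_le_mul_of_nonneg_left h2 (Real.exp_pos _).le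
    calc Real.exp ((2 * Real.pi - ε) * X) = (t * t / 16) * (Real.exp ((2 * Real.pi - ε) * X) * (2 / t * (8 / t))) := by
          field_simp
          norm_num
      _ ≤ (t * t / 16) * (Real.exp ((2 * Real.pi - ε) * X) * Real.exp (ε / 2 * X)) :=
          mul_le_mul_of_nonneg_left k6 (by positivity)
      _ = _ := by ring
  · -- the upper bound
    have k1 := hMk w (by rw [Metric.mem_closedBall, dist_zero_right]; exact hw)
    have k2 : ‖AK L p w‖ ≤ 2 * p * (Real.exp (2 * Real.pi * L) * Real.exp (1 / ε * p / 2)) := by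
      refine (AK_norm_le hp0 w).trans (Z.AK_le hp0 w.im fun φ hφ => ?_)
      have k3 : 2 * Real.pi * L * (Real.cos φ - 1) ≤ 0 := by
        have := Real.cos_le_one φ
        have : 0 < 2 * Real.pi * L := by positivity
        nlinarith
      have k4 : |w.im| ≤ 1 / ε := (Complex.abs_im_le_norm w).trans hw
      have k5 : |w.im| * φ ≤ 1 / ε * p := by
        calc |w.im| * φ ≤ |w.im| * |φ| := mul_le_mul_of_nonneg_left (le_abs_self _) (abs_nonneg _)
          _ ≤ 1 / ε * p := mul_le_mul k4 hφ (abs_nonneg _) (by positivity)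
      linarith
    simp only [hB]
    rw [norm_mul, norm_div]
    have e8 : ‖(8 : ℂ)‖ = 8 := by norm_num
    rw [e8]
    calc ‖AK L p w‖ / 8 * ‖TT (kap (t / 2)) w‖ ≤ (2 * p * (Real.exp (2 * Real.pi * L) * Real.exp (1 / ε * p / 2))) / 8 * Mk := by
          refine mul_le_mul (div_le_div_of_nonneg_right k2 (by norm_num)) k1 (norm_nonneg _) (by positivity)
      _ = Real.exp (2 * Real.pi * L) * (2 * p * Real.exp (1 / ε * p / 2) / 8 * Mk) := by ring
      _ ≤ Real.exp (2 * Real.pi * X) * Real.exp (ε * X) := by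
          refine mul_le_mul (Real.exp_le_exp.2 (mul_le_mul_of_nonneg_left hLX1 (by positivity))) h3 (by positivity) (Real.exp_pos _).le
      _ = _ := by rw [← Real.exp_add]; congr 1; ring

end Pool.Agent.Q26.EX
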